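import Pool.Agent.W345.GK.Cl2

set_option autoImplicit false
set_option linter.all false

open Polynomial Finset
open scoped TensorProduct nonZeroDivisors IntermediateField

namespace Pool.Agent.W918.GK

open Pool.Agent.W345.GK

theorem discr_gen {K L : Type} [Field K] [Field L] [Algebra K L] [FiniteDimensional K L]
    [Algebra.IsSeparable K L] (l : L) (hl : (minpoly K l).natDegree = Module.finrank K L) (x c : K)
    (hx : algebraMap K L x = l * aeval l (minpoly K l).derivative)
    (hc : (minpoly K l).coeff 0 = x) (hx0 : x ≠ 0) :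
    ∃ B : PowerBasis K L, B.gen = l ∧
      (Algebra.discr K B.basis = x ^ (Module.finrank K L - 1) ∨
        Algebra.discr K B.basis = - x ^ (Module.finrank K L - 1)) := by
  have htop : K⟮l⟯ = ⊤ := (Field.primitive_element_iff_minpoly_natDegree_eq K l).2 hl
  have hint : IsIntegral K l := IsIntegral.of_finite K l
  have hadj : Algebra.adjoin K {l} = ⊤ := by
    rw [← IntermediateField.adjoin_simple_toSubalgebra_of_isAlgebraic hint.isAlgebraic, htop]
    rfl
  set B := PowerBasis.ofAdjoinEqTop hint hadj with hB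
  have hgen : B.gen = l := by
    rw [hB]
    simp
  refine ⟨B, hgen, ?_⟩
  have hpos : 0 < Module.finrank K L := Module.finrank_pos
  have h1 := Algebra.discr_powerBasis_eq_norm K B
  rw [hgen] at h1
  have h2 : Algebra.norm K l * Algebra.norm K (aeval l (minpoly K l).derivative) = x ^ Module.finrank K L := by
    rw [← map_mul, ← hx, Algebra.norm_algebraMap]
  have h3 : Algebra.norm K l = (-1) ^ B.dim * x := by
    have := Algebra.PowerBasis.norm_gen_eq_coeff_zero_minpoly B
    rw [hgen, hc] at this
    exact this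
  have h4 : (-1) ^ B.dim * Algebra.norm K (aeval l (minpoly K l).derivative) = x ^ (Module.finrank K L - 1) := by
    apply mul_left_cancel₀ hx0
    rw [← pow_succ', Nat.sub_add_cancel hpos, ← h2, h3]
    ring
  have hs : ∀ n : ℕ, ((-1 : K) ^ n = 1 ∨ (-1 : K) ^ n = -1) := fun n => neg_one_pow_eq_or K n
  rw [h1]
  rcases hs B.dim with h | h
  · rw [h, one_mul] at h4
    rw [h4]
    rcases hs (Module.finrank K L * (Module.finrank K L - 1) / 2) with h' | h'
    · rw [h']
      left
      ring
    · rw [h']
      right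
      ring
  · rw [h] at h4
    have h5 : Algebra.norm K (aeval l (minpoly K l).derivative) = - x ^ (Module.finrank K L - 1) := by
      rw [← h4]
      ring
    rw [h5]
    rcases hs (Module.finrank K L * (Module.finrank K L - 1) / 2) with h' | h'
    · rw [h']
      right
      ring
    · rw [h']
      left
      ring

theorem opg (hB : S_CYB) : S_OPG := by
  intro k Fc _ _ _ _ _ _ _ _ P c hPm hPi hfin y
  obtain ⟨Ψ, h1, h2, h3, h4, h5, h6, h7, h8, h9, h10, h11⟩ := hB k P hPm hPi
  have hl0 : c.lam 1 ≠ 0 := by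
    intro h
    exact hPi.not_isUnit (isUnit_of_dvd_one ((c.zero_iff 1).1 h))
  have hroot : aeval (c.lam 1) (car P) = 0 := (c.roots (c.lam 1)).2 ⟨1, rfl⟩
  have hΨ : aeval (c.lam 1) Ψ = 0 := by
    rw [h1, map_mul, aeval_X] at hroot
    exact (mul_eq_zero.1 hroot).resolve_left hl0
  have hintA : IsIntegral k[X] (c.lam 1) := ⟨Ψ, h2, by rwa [← aeval_def]⟩
  have hmin : minpoly (RatFunc k) (c.lam 1) = Ψ.map (algebraMap k[X] (RatFunc k)) := by
    symm
    apply minpoly.eq_of_irreducible_of_monic h7
    · rw [aeval_map_algebraMap]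
      exact hΨ
    · exact h2.map _
  have hdeg : (minpoly (RatFunc k) (c.lam 1)).natDegree = Module.finrank (RatFunc k) Fc := by
    rw [hmin, h2.natDegree_map, h3, hfin]
  have hx0 : algebraMap k[X] (RatFunc k) P ≠ 0 := by
    rw [Ne, FaithfulSMul.algebraMap_eq_zero_iff]
    exact hPi.ne_zero
  obtain ⟨B, hBg, hBd⟩ := discr_gen (c.lam 1) hdeg (algebraMap k[X] (RatFunc k) P) 0 (by
    rw [hmin, derivative_map, aeval_map_algebraMap, ← IsScalarTower.algebraMap_apply]
    have := congrArg (aeval (c.lam 1)) h9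
    rw [map_add, map_mul, aeval_X, hΨ, zero_add, aeval_C] at this
    exact this.symm) (by rw [hmin, coeff_map, h5]) hx0
  constructor
  · rintro ⟨n, hn⟩
    have hd := Algebra.discr_mul_isIntegral_mem_adjoin (R := k[X]) (RatFunc k) (B := B) (by rw [hBg]; exact hintA) hn
    rw [hBg, Algebra.adjoin_singleton_eq_range_aeval] at hd
    have key : ∀ ε : RatFunc k, ε = algebraMap k[X] (RatFunc k) P ^ (Module.finrank (RatFunc k) Fc - 1) →
        ε • ((algebraMap k[X] Fc P) ^ n * y) =
          (algebraMap k[X] Fc P) ^ (Module.finrank (RatFunc k) Fc - 1 + n) * y := by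
      intro ε hε
      rw [hε, Algebra.smul_def, map_pow, ← IsScalarTower.algebraMap_apply, pow_add, mul_assoc]
    rcases hBd with h | h
    · rw [h, key _ rfl] at hd
      obtain ⟨f, hf⟩ := hd
      exact ⟨_, f, hf.symm⟩
    · rw [h, neg_smul, key _ rfl] at hd
      obtain ⟨f, hf⟩ := hd
      refine ⟨Module.finrank (RatFunc k) Fc - 1 + n, -f, ?_⟩
      rw [map_neg]
      have hf' : aeval (c.lam 1) f = -((algebraMap k[X] Fc P) ^ (Module.finrank (RatFunc k) Fc - 1 + n) * y) := hf
      rw [hf', neg_neg]
  · rintro ⟨n, f, hf⟩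
    refine ⟨n, ?_⟩
    rw [hf]
    exact adjoin_le_integralClosure hintA (aeval_mem_adjoin_singleton _ _)

theorem opg' (h1 : S_C1) (hB : S_CYB) : S_OPG := opg hB

end Pool.Agent.W918.GK
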